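import Pool.Agent.W582.OE.Solv

set_option autoImplicit false

namespace Pool.Agent.W582.OE

open Finset

universe u

section

variable {G : Type u} [Group G] [Fintype G] (V : Subgroup G) [V.Normal]

/-- one fibre, one prime, central kernel: equality. -/
theorem fiber_single_eq {p : ℕ} (hp : p.Prime) (hV : IsPGroup p V)
    (hcen : ∀ g : G, ∀ v ∈ V, g * v = v * g) [Fintype (G ⧸ V)]
    [DecidableEq (G ⧸ V)] (c : G ⧸ V) {s : ℝ} :
    ∑ g ∈ univ.filter (fun g : G => QuotientGroup.mk' V g = c), fac s p g =
      (Nat.card V : ℝ) * fac (s / (Nat.card V : ℝ)) p c := by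
  classical
  have hcV : (0 : ℝ) < Nat.card V := by exact_mod_cast Nat.card_pos
  unfold fac
  by_cases hc : p ∣ orderOf c
  · rw [if_pos hc, mul_one]
    rw [Finset.sum_congr rfl (g := fun _ => (1 : ℝ))]
    · rw [sum_const, card_fiber, nsmul_eq_mul, mul_one]
    · intro g hg
      rw [mem_filter] at hg
      rw [if_pos]
      rw [← hg.2] at hc
      exact hc.trans (orderOf_map_dvd _ _)
  · rw [if_neg hc]
    obtain ⟨g0, hg0, hg0'⟩ := exists_regular V hp hV c hc
    have hmem : g0 ∈ univ.filter (fun g : G => QuotientGroup.mk' V g = c) := by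
      rw [mem_filter]; exact ⟨mem_univ _, hg0⟩
    rw [← Finset.add_sum_erase _ _ hmem, if_neg hg0']
    have h1 : ∑ g ∈ (univ.filter (fun g : G => QuotientGroup.mk' V g = c)).erase g0,
        (if p ∣ orderOf g then (1 : ℝ) else 1 - s) =
        ∑ g ∈ (univ.filter (fun g : G => QuotientGroup.mk' V g = c)).erase g0, (1 : ℝ) := by
      apply Finset.sum_congr rfl
      intro g hg
      rw [mem_erase, mem_filter] at hg
      rw [if_pos]
      by_contra hreg
      apply hg.1
      -- `g = g0 * v`
      have hv : g0⁻¹ * g ∈ V := by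
        have : QuotientGroup.mk' V g0 = QuotientGroup.mk' V g := by rw [hg0, hg.2.2]
        exact (QuotientGroup.eq).1 this
      set v := g0⁻¹ * g with hvdef
      have hgv : g = g0 * v := by rw [hvdef]; group
      have hcomm : Commute g0 v := hcen g0 v hv
      have hcomm' : Commute g g0⁻¹ := by
        have : Commute g0 g := by
          rw [hgv]; exact (Commute.refl g0).mul_right hcomm
        exact this.symm.inv_right
      have hv' : v = g * g0⁻¹ := by
        rw [hvdef]; exact hcomm'.eq.symm
      -- order of v is prime to p and a power of p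
      obtain ⟨k, hk⟩ := hV ⟨v, hv⟩
      have hk' : v ^ p ^ k = 1 := by simpa using congrArg Subtype.val hk
      have h5 : v ^ (orderOf g * orderOf g0) = 1 := by
        rw [hv', hcomm'.mul_pow, pow_mul, pow_orderOf_eq_one, one_pow, one_mul, mul_comm (orderOf g),
          pow_mul, inv_pow, pow_orderOf_eq_one, inv_one, one_pow]
      have h6 : orderOf v ∣ orderOf g * orderOf g0 := orderOf_dvd_of_pow_eq_one h5
      have h7 : orderOf v ∣ p ^ k := orderOf_dvd_of_pow_eq_one hk'
      have h8 : orderOf v = 1 := by
        obtain ⟨i, -, hi⟩ := (Nat.dvd_prime_pow hp).1 h7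
        rcases Nat.eq_zero_or_pos i with h | h
        · rw [hi, h, pow_zero]
        · exfalso
          have h9 : p ∣ orderOf g * orderOf g0 :=
            (dvd_pow_self p h.ne').trans (hi ▸ h6)
          rcases (hp.dvd_mul).1 h9 with h | h
          · exact hreg h
          · exact hg0' h
      rw [orderOf_eq_one_iff] at h8
      rw [hgv, h8, mul_one]
    have h2 : ∑ g ∈ (univ.filter (fun g : G => QuotientGroup.mk' V g = c)).erase g0, (1 : ℝ) =
        Nat.card V - 1 := by
      rw [sum_const, Finset.card_erase_of_mem hmem, card_fiber, nsmul_eq_mul, mul_one,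
        Nat.cast_sub Nat.card_pos, Nat.cast_one]
    have h3 : (Nat.card V : ℝ) * (1 - s / Nat.card V) = Nat.card V - s := by
      field_simp
    rw [h3, h1, h2]
    ring

theorem L_eq_quotient {p : ℕ} (hp : p.Prime) (hV : IsPGroup p V)
    (hcen : ∀ g : G, ∀ v ∈ V, g * v = v * g) [Fintype (G ⧸ V)]
    (S : Finset ℕ) (hS : ∀ q ∈ S, q.Prime) (t : ℕ → ℝ) :
    L G S t = (Nat.card V : ℝ) * L (G ⧸ V) S (upd t p (Nat.card V)) := by
  classical
  have hcV : (0 : ℝ) < Nat.card V := by exact_mod_cast Nat.card_pos
  unfold L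
  rw [← Finset.sum_fiberwise_of_maps_to (s := (univ : Finset G)) (t := (univ : Finset (G ⧸ V)))
    (g := fun g => QuotientGroup.mk' V g) (fun _ _ => mem_univ _), Finset.mul_sum]
  apply Finset.sum_congr rfl
  intro c _
  have hne : ∀ q ∈ S, q ≠ p → ∀ g ∈ univ.filter (fun g : G => QuotientGroup.mk' V g = c),
      fac (t q) q g = fac (upd t p (Nat.card V) q) q c := by
    intro q hq hqp g hg
    rw [mem_filter] at hg
    unfold fac upd
    rw [Function.update_of_ne hqp]
    have := dvd_orderOf_mk_iff V hp hV (hS q hq) hqp g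
    rw [hg.2] at this
    by_cases h : q ∣ orderOf g
    · rw [if_pos h, if_pos (this.2 h)]
    · rw [if_neg h, if_neg (fun h' => h (this.1 h'))]
  by_cases hpS : p ∈ S
  · rw [← Finset.mul_prod_erase S _ hpS]
    have : ∀ g ∈ univ.filter (fun g : G => QuotientGroup.mk' V g = c),
        ∏ q ∈ S, fac (t q) q g =
          fac (t p) p g * ∏ q ∈ S.erase p, fac (upd t p (Nat.card V) q) q c := by
      intro g hg
      rw [← Finset.mul_prod_erase S _ hpS]
      congr 1
      apply Finset.prod_congr rfl
      intro q hq
      rw [mem_erase] at hq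
      exact hne q hq.2 hq.1 g hg
    rw [Finset.sum_congr rfl this, ← Finset.sum_mul]
    have h1 := fiber_single_eq V hp hV hcen c (s := t p)
    have h2 : fac (upd t p (Nat.card V) p) p c = fac (t p / (Nat.card V : ℝ)) p c := by
      unfold upd; rw [Function.update_self]
    rw [h2, ← mul_assoc, h1]
  · have : ∀ g ∈ univ.filter (fun g : G => QuotientGroup.mk' V g = c),
        ∏ q ∈ S, fac (t q) q g = ∏ q ∈ S, fac (upd t p (Nat.card V) q) q c := by
      intro g hg
      apply Finset.prod_congr rfl
      intro q hq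
      exact hne q hq (fun h => hpS (h ▸ hq)) g hg
    rw [Finset.sum_congr rfl this, sum_const, card_fiber, nsmul_eq_mul]

end

theorem L_comm_aux (n : ℕ) :
    ∀ (G : Type u) [Group G] [Fintype G], (∀ a b : G, a * b = b * a) → Fintype.card G = n →
      ∀ (S : Finset ℕ), (∀ q ∈ S, q.Prime) → ∀ t : ℕ → ℝ,
        L G S t = (Fintype.card G : ℝ) * B (Fintype.card G) S t := by
  classical
  induction n using Nat.strong_induction_on with
  | _ n ih =>
    intro G _ _ hcomm hG S hS t
    by_cases htriv : Subsingleton G
    · have hc : Fintype.card G = 1 := Fintype.card_eq_one_iff_nonempty_unique.2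
        ⟨⟨⟨1⟩, fun a => Subsingleton.elim _ _⟩⟩
      rw [hc]
      unfold L B
      have huniv : (univ : Finset G) = {1} := by
        ext x; simp [Subsingleton.elim x 1]
      rw [huniv, sum_singleton]
      simp only [Nat.cast_one, one_mul]
      apply Finset.prod_congr rfl
      intro q hq
      unfold fac
      rw [orderOf_one, if_neg]
      · simp
      · intro h
        exact (hS q hq).one_lt.ne' (Nat.dvd_one.1 h)
    · rw [not_subsingleton_iff_nontrivial] at htriv
      obtain ⟨a, ha1⟩ := exists_ne (1 : G)
      have hao : orderOf a ≠ 1 := fun h => ha1 (orderOf_eq_one_iff.1 h)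
      obtain ⟨p, hp, hpa⟩ := Nat.exists_prime_and_dvd hao
      set V := expSub (⊤ : Subgroup G) (fun a _ b _ => hcomm a b) p with hVdef
      have hVn : V.Normal := expSub_normal _ _ p
      have hVp : IsPGroup p V := by
        intro x
        refine ⟨1, ?_⟩
        apply Subtype.ext
        rw [pow_one]
        exact x.2.2
      have hVne : V ≠ ⊥ := by
        intro hbot
        have h1 : a ^ (orderOf a / p) ∈ V := by
          refine ⟨Subgroup.mem_top _, ?_⟩
          rw [← pow_mul, Nat.div_mul_cancel hpa, pow_orderOf_eq_one]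
        rw [hbot, Subgroup.mem_bot] at h1
        have h2 := orderOf_dvd_of_pow_eq_one h1
        have h3 : 0 < orderOf a := orderOf_pos a
        have h4 : 0 < orderOf a / p := Nat.div_pos (Nat.le_of_dvd h3 hpa) hp.pos
        have h5 : orderOf a / p < orderOf a := Nat.div_lt_self h3 hp.one_lt
        exact absurd (Nat.le_of_dvd h4 h2) (not_le.2 h5)
      have : Fintype (G ⧸ V) := Fintype.ofFinite _
      have hlt : Fintype.card (G ⧸ V) < n := by
        rw [← hG, ← Nat.card_eq_fintype_card, ← Nat.card_eq_fintype_card,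
          V.card_eq_card_quotient_mul_card_subgroup]
        have h1 : 1 < Nat.card V := (Subgroup.one_lt_card_iff_ne_bot V).2 hVne
        have h2 : 0 < Nat.card (G ⧸ V) := Nat.card_pos
        nlinarith
      have hcomm' : ∀ a b : G ⧸ V, a * b = b * a := by
        intro a b
        obtain ⟨a, rfl⟩ := QuotientGroup.mk'_surjective V a
        obtain ⟨b, rfl⟩ := QuotientGroup.mk'_surjective V b
        rw [← map_mul, ← map_mul, hcomm]
      have hcard : (Fintype.card G : ℝ) = Nat.card V * Fintype.card (G ⧸ V) := by
        rw [← Nat.card_eq_fintype_card, ← Nat.card_eq_fintype_card, mul_comm]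
        exact_mod_cast V.card_eq_card_quotient_mul_card_subgroup
      rw [L_eq_quotient V hp hVp (fun g v _ => hcomm g v) S hS t,
        ih _ hlt (G ⧸ V) hcomm' rfl S hS _, B_quotient V hp hVp S hS t, hcard]
      ring

/-- equality for commutative groups. -/
theorem L_comm (G : Type u) [Group G] [Fintype G] (hcomm : ∀ a b : G, a * b = b * a)
    (S : Finset ℕ) (hS : ∀ q ∈ S, q.Prime) (t : ℕ → ℝ) :
    L G S t = (Fintype.card G : ℝ) * B (Fintype.card G) S t :=
  L_comm_aux _ G hcomm rfl S hS t

end Pool.Agent.W582.OE
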