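import Pool.Agent.W582.OE.Final

set_option autoImplicit false

/-! Equality case: a soluble group attaining the bound is nilpotent. -/

namespace Pool.Agent.W582.OE

open Finset

universe u

section

variable {G : Type u} [Group G] [Fintype G] (V : Subgroup G) [V.Normal]

/-- strict inequality in a fibre containing two `p`-regular elements. -/
theorem fiber_single_lt {p : ℕ} [Fintype (G ⧸ V)]
    [DecidableEq (G ⧸ V)] (c : G ⧸ V) {s : ℝ} (hs0 : 0 < s) {g0 g1 : G}
    (hg0 : QuotientGroup.mk' V g0 = c) (hg1 : QuotientGroup.mk' V g1 = c)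
    (h0 : ¬ p ∣ orderOf g0) (h1 : ¬ p ∣ orderOf g1) (hne : g0 ≠ g1) :
    ∑ g ∈ univ.filter (fun g : G => QuotientGroup.mk' V g = c), fac s p g <
      (Nat.card V : ℝ) * fac (s / (Nat.card V : ℝ)) p c := by
  classical
  have hcV : (0 : ℝ) < Nat.card V := by exact_mod_cast Nat.card_pos
  have hc : ¬ p ∣ orderOf c := by
    intro h
    apply h0
    rw [← hg0] at h
    exact h.trans (orderOf_map_dvd _ _)
  unfold fac
  rw [if_neg hc]
  have hmem : g0 ∈ univ.filter (fun g : G => QuotientGroup.mk' V g = c) := by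
    rw [mem_filter]; exact ⟨mem_univ _, hg0⟩
  have hmem1 : g1 ∈ (univ.filter (fun g : G => QuotientGroup.mk' V g = c)).erase g0 := by
    rw [mem_erase, mem_filter]; exact ⟨hne.symm, mem_univ _, hg1⟩
  rw [← Finset.add_sum_erase _ _ hmem, if_neg h0]
  have h3 : ∑ g ∈ (univ.filter (fun g : G => QuotientGroup.mk' V g = c)).erase g0,
      (if p ∣ orderOf g then (1 : ℝ) else 1 - s) <
      ∑ g ∈ (univ.filter (fun g : G => QuotientGroup.mk' V g = c)).erase g0, (1 : ℝ) := by
    apply Finset.sum_lt_sum
    · intro g _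
      split_ifs
      · exact le_rfl
      · linarith
    · refine ⟨g1, hmem1, ?_⟩
      rw [if_neg h1]
      linarith
  have h2 : ∑ g ∈ (univ.filter (fun g : G => QuotientGroup.mk' V g = c)).erase g0, (1 : ℝ) =
      Nat.card V - 1 := by
    rw [sum_const, Finset.card_erase_of_mem hmem, card_fiber, nsmul_eq_mul, mul_one,
      Nat.cast_sub Nat.card_pos, Nat.cast_one]
  have h4 : (Nat.card V : ℝ) * (1 - s / Nat.card V) = Nat.card V - s := by
    field_simp
  rw [h4]
  linarith

theorem L_lt_quotient {p : ℕ} (hp : p.Prime) (hV : IsPGroup p V) [Fintype (G ⧸ V)]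
    (S : Finset ℕ) (hS : ∀ q ∈ S, q.Prime) (hpS : p ∈ S) (t : ℕ → ℝ)
    (ht : ∀ q, 0 ≤ t q ∧ t q ≤ 1) (ht0 : 0 < t p) (ht1 : ∀ q ∈ S, t q < 1) {g0 g1 : G}
    (hg : QuotientGroup.mk' V g0 = QuotientGroup.mk' V g1)
    (h0 : ¬ p ∣ orderOf g0) (h1 : ¬ p ∣ orderOf g1) (hne : g0 ≠ g1) :
    L G S t < (Nat.card V : ℝ) * L (G ⧸ V) S (upd t p (Nat.card V)) := by
  classical
  have hcV : (0 : ℝ) < Nat.card V := by exact_mod_cast Nat.card_pos
  unfold L
  rw [← Finset.sum_fiberwise_of_maps_to (s := (univ : Finset G)) (t := (univ : Finset (G ⧸ V)))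
    (g := fun g => QuotientGroup.mk' V g) (fun _ _ => mem_univ _), Finset.mul_sum]
  have key : ∀ c : G ⧸ V, ∑ g ∈ univ.filter (fun g : G => QuotientGroup.mk' V g = c),
        ∏ q ∈ S, fac (t q) q g =
      (∑ g ∈ univ.filter (fun g : G => QuotientGroup.mk' V g = c), fac (t p) p g) *
        ∏ q ∈ S.erase p, fac (upd t p (Nat.card V) q) q c := by
    intro c
    rw [Finset.sum_mul]
    apply Finset.sum_congr rfl
    intro g hg
    rw [← Finset.mul_prod_erase S _ hpS]
    congr 1
    apply Finset.prod_congr rfl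
    intro q hq
    rw [mem_erase] at hq
    rw [mem_filter] at hg
    unfold fac upd
    rw [Function.update_of_ne hq.1]
    have := dvd_orderOf_mk_iff V hp hV (hS q hq.2) hq.1 g
    rw [hg.2] at this
    by_cases h : q ∣ orderOf g
    · rw [if_pos h, if_pos (this.2 h)]
    · rw [if_neg h, if_neg (fun h' => h (this.1 h'))]
  have h2 : ∀ c : G ⧸ V, fac (upd t p (Nat.card V) p) p c =
      fac (t p / (Nat.card V : ℝ)) p c := by
    intro c
    unfold upd; rw [Function.update_self]
  apply Finset.sum_lt_sum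
  · intro c _
    rw [key c, ← Finset.mul_prod_erase S _ hpS, h2, ← mul_assoc]
    apply mul_le_mul_of_nonneg_right (fiber_single V hp hV c (ht p).1)
    apply Finset.prod_nonneg
    intro q _
    exact fac_nonneg (upd_mem ht p Nat.card_pos q).2 _ _
  · refine ⟨QuotientGroup.mk' V g0, mem_univ _, ?_⟩
    rw [key, ← Finset.mul_prod_erase S _ hpS, h2, ← mul_assoc]
    apply mul_lt_mul_of_pos_right (fiber_single_lt V _ ht0 rfl hg.symm h0 h1 hne)
    apply Finset.prod_pos
    intro q hq
    rw [mem_erase] at hq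
    unfold fac upd
    rw [Function.update_of_ne hq.1]
    have := ht1 q hq.2
    split_ifs <;> linarith

/-- If `G/V` is good and `G` attains the bound then so does `G/V`, and `p`-regular elements
centralise `V`. -/
theorem equality_step {p : ℕ} (hp : p.Prime) (hV : IsPGroup p V) [Fintype (G ⧸ V)]
    (S : Finset ℕ) (hS : ∀ q ∈ S, q.Prime) (hpS : p ∈ S) (t : ℕ → ℝ)
    (ht : ∀ q, 0 ≤ t q ∧ t q ≤ 1) (ht0 : 0 < t p) (ht1 : ∀ q ∈ S, t q < 1)
    (hgood : Good (G ⧸ V))
    (heq : L G S t = (Fintype.card G : ℝ) * B (Fintype.card G) S t) :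
    (L (G ⧸ V) S (upd t p (Nat.card V)) = (Fintype.card (G ⧸ V) : ℝ) *
      B (Fintype.card (G ⧸ V)) S (upd t p (Nat.card V))) ∧
    ∀ g : G, ¬ p ∣ orderOf g → ∀ v ∈ V, v * g * v⁻¹ = g := by
  have hcV : (0 : ℝ) < Nat.card V := by exact_mod_cast Nat.card_pos
  have hcard : (Fintype.card G : ℝ) = Nat.card V * Fintype.card (G ⧸ V) := by
    rw [← Nat.card_eq_fintype_card, ← Nat.card_eq_fintype_card, mul_comm]
    exact_mod_cast V.card_eq_card_quotient_mul_card_subgroup
  have h1 := L_le_quotient V hp hV S hS t ht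
  have h2 := hgood S hS _ (upd_mem ht p (c := Nat.card V) Nat.card_pos)
  have h3 : (Nat.card V : ℝ) * ((Fintype.card (G ⧸ V) : ℝ) *
          B (Fintype.card (G ⧸ V)) S (upd t p (Nat.card V))) =
      (Fintype.card G : ℝ) * B (Fintype.card G) S t := by
    rw [B_quotient V hp hV S hS t, hcard]; ring
  constructor
  · apply le_antisymm h2
    apply le_of_mul_le_mul_left _ hcV
    rw [h3, ← heq]
    exact h1
  · intro g hg v hv
    by_contra hne
    have h4 : QuotientGroup.mk' V g = QuotientGroup.mk' V (v * g * v⁻¹) := by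
      have : QuotientGroup.mk' V v = 1 := by
        rw [QuotientGroup.mk'_apply, QuotientGroup.eq_one_iff]; exact hv
      rw [map_mul, map_mul, map_inv, this, inv_one, one_mul, mul_one]
    have h5 : ¬ p ∣ orderOf (v * g * v⁻¹) := by
      rwa [show orderOf (v * g * v⁻¹) = orderOf g from ?_]
      exact orderOf_injective (MulAut.conj v).toMonoidHom (MulAut.conj v).injective g
    have h6 := L_lt_quotient V hp hV S hS hpS t ht ht0 ht1 h4 hg h5 (Ne.symm hne)
    have h7 := mul_le_mul_of_nonneg_left h2 hcV.le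
    rw [h3, ← heq] at h7
    linarith

/-- If `p`-regular elements centralise the nontrivial normal `p`-subgroup `V` then `V` meets the
centre. -/
theorem exists_central {p : ℕ} (hp : p.Prime) (hV : IsPGroup p V) (hne : V ≠ ⊥)
    (h : ∀ g : G, ¬ p ∣ orderOf g → ∀ v ∈ V, v * g * v⁻¹ = g) :
    ∃ z ∈ V, z ≠ 1 ∧ ∀ g : G, g * z = z * g := by
  classical
  have : Fact p.Prime := ⟨hp⟩
  let φ : G →* MulAut V := MulAut.conjNormal
  have hφ : IsPGroup p φ.range := by
    rintro ⟨_, g, rfl⟩
    -- `orderOf g = p ^ a * m`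
    obtain ⟨a, m, hm, ham⟩ := Nat.exists_eq_pow_mul_and_not_dvd (orderOf_pos g).ne' p hp.ne_one
    refine ⟨a, ?_⟩
    apply Subtype.ext
    show (φ g) ^ p ^ a = 1
    rw [← map_pow]
    have hreg : ¬ p ∣ orderOf (g ^ p ^ a) := by
      intro hd
      apply hm
      refine hd.trans (orderOf_dvd_of_pow_eq_one ?_)
      rw [← pow_mul, ← ham, pow_orderOf_eq_one]
    ext v
    show ((MulAut.conjNormal (g ^ p ^ a)) v : G) = v
    rw [MulAut.conjNormal_apply]
    have h1 := h _ hreg v v.2
    have h2 : (v : G) * g ^ p ^ a = g ^ p ^ a * v := by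
      rw [mul_inv_eq_iff_eq_mul] at h1; exact h1
    rw [← h2, mul_inv_cancel_right]
  have hdvd : p ∣ Nat.card V := by
    obtain ⟨k, hk⟩ := (IsPGroup.iff_card (G := V)).1 hV
    rw [hk]
    apply dvd_pow_self
    intro h0
    rw [h0, pow_zero] at hk
    exact hne (Subgroup.card_eq_one.1 hk)
  have h1 : (1 : V) ∈ MulAction.fixedPoints φ.range V := by
    intro x
    show (x : MulAut V) 1 = 1
    exact map_one _
  obtain ⟨z, hz, hz1⟩ := hφ.exists_fixed_point_of_prime_dvd_card_of_fixed_point V hdvd h1
  refine ⟨z, z.2, fun h => hz1 (Subtype.ext h.symm), ?_⟩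
  intro g
  have h2 := hz ⟨φ g, g, rfl⟩
  have h3 : (φ g) z = z := h2
  have h4 := congrArg Subtype.val h3
  have h5 : g * z * g⁻¹ = (z : G) := by
    rw [← MulAut.conjNormal_apply]; exact h4
  exact mul_inv_eq_iff_eq_mul.1 h5

end

theorem nilpotent_of_equality_aux (n : ℕ) :
    ∀ (G : Type u) [Group G] [Fintype G] [Group.IsSolvable G], Fintype.card G = n →
      ∀ (S : Finset ℕ), (∀ q ∈ S, q.Prime) → (∀ p, p.Prime → p ∣ Fintype.card G → p ∈ S) →
      ∀ t : ℕ → ℝ, (∀ q, 0 ≤ t q ∧ t q ≤ 1) → (∀ q ∈ S, 0 < t q ∧ t q < 1) →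
        L G S t = (Fintype.card G : ℝ) * B (Fintype.card G) S t → Group.IsNilpotent G := by
  classical
  induction n using Nat.strong_induction_on with
  | _ n ih =>
    intro G _ _ _ hG S hS hSall t ht ht' heq
    by_cases htriv : Subsingleton G
    · infer_instance
    · rw [not_subsingleton_iff_nontrivial] at htriv
      have : Group.IsSolvable (⊤ : Subgroup G) := inferInstance
      obtain ⟨p, V, hp, hVn, -, hVne, hVp⟩ := exists_normal_pGroup (⊤ : Subgroup G) top_ne_bot
      have := hVn
      have : Fintype (G ⧸ V) := Fintype.ofFinite _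
      have hpS : p ∈ S := by
        apply hSall p hp
        have : Fact p.Prime := ⟨hp⟩
        obtain ⟨k, hk⟩ := (IsPGroup.iff_card (G := V)).1 hVp
        have hd : p ∣ Nat.card V := by
          rw [hk]
          apply dvd_pow_self
          intro h0
          rw [h0, pow_zero] at hk
          exact hVne (Subgroup.card_eq_one.1 hk)
        rw [← Nat.card_eq_fintype_card]
        exact hd.trans V.card_subgroup_dvd_card
      have hcen := (equality_step V hp hVp S hS hpS t ht (ht' p hpS).1 (fun q hq => (ht' q hq).2)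
        (good_of_solvable (G ⧸ V)) heq).2
      obtain ⟨z, hzV, hz1, hzc⟩ := exists_central V hp hVp hVne hcen
      set W : Subgroup G := Subgroup.zpowers z with hW
      have hWc : W ≤ Subgroup.center G := by
        rw [hW, Subgroup.zpowers_le, Subgroup.mem_center_iff]
        intro g; exact hzc g
      have hWn : W.Normal := by
        constructor
        intro w hw g
        have h1 := (Subgroup.mem_center_iff.1 (hWc hw)) g
        rw [h1, mul_inv_cancel_right]
        exact hw
      have hWV : W ≤ V := by rw [hW, Subgroup.zpowers_le]; exact hzV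
      have hWp : IsPGroup p W := hVp.to_le hWV
      have hWne : W ≠ ⊥ := by
        rw [hW]
        intro h
        exact hz1 (Subgroup.zpowers_eq_bot.1 h)
      have : Fintype (G ⧸ W) := Fintype.ofFinite _
      have heq' := (equality_step W hp hWp S hS hpS t ht (ht' p hpS).1 (fun q hq => (ht' q hq).2)
        (good_of_solvable (G ⧸ W)) heq).1
      have hWcard : 1 < Nat.card W := (Subgroup.one_lt_card_iff_ne_bot W).2 hWne
      have hlt : Fintype.card (G ⧸ W) < n := by
        rw [← hG, ← Nat.card_eq_fintype_card, ← Nat.card_eq_fintype_card,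
          W.card_eq_card_quotient_mul_card_subgroup]
        have h2 : 0 < Nat.card (G ⧸ W) := Nat.card_pos
        nlinarith
      have hnil : Group.IsNilpotent (G ⧸ W) := by
        refine ih _ hlt (G ⧸ W) rfl S hS ?_ (upd t p (Nat.card W))
          (upd_mem ht p Nat.card_pos) ?_ heq'
        · intro q hq hqd
          apply hSall q hq
          refine hqd.trans ?_
          rw [← Nat.card_eq_fintype_card, ← Nat.card_eq_fintype_card,
            W.card_eq_card_quotient_mul_card_subgroup]
          exact dvd_mul_right _ _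
        · intro q hq
          unfold upd
          by_cases h : q = p
          · subst h
            rw [Function.update_self]
            have hc' : (1 : ℝ) ≤ Nat.card W := by exact_mod_cast hWcard.le
            have h1 := ht' q hq
            refine ⟨div_pos h1.1 (by linarith), ?_⟩
            rw [div_lt_one (by linarith)]
            linarith
          · rw [Function.update_of_ne h]
            exact ht' q hq
      apply Subgroup.isNilpotent_of_ker_le_center (QuotientGroup.mk' W) _
      rw [QuotientGroup.ker_mk']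
      exact hWc

theorem tt_pos {r : ℝ} (hr : 0 < r) {q : ℕ} (hq : q.Prime) : 0 < tt r q ∧ tt r q < 1 := by
  unfold tt
  rw [if_pos hq]
  have h1 : 1 < cc r q := by
    unfold cc
    apply Real.one_lt_rpow _ hr
    rw [one_lt_inv₀ (one_sub_inv_pos hq)]
    have : (0 : ℝ) < (q : ℝ)⁻¹ := by
      have := hq.pos
      positivity
    linarith
  have h2 : (cc r q)⁻¹ < 1 := inv_lt_one_of_one_lt₀ h1
  have h3 : 0 < (cc r q)⁻¹ := inv_pos.2 (by linarith)
  constructor <;> linarith

/-- soluble groups attaining the bound are nilpotent. -/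
theorem nilpotent_of_R_eq (G : Type u) [Group G] [Fintype G] [Group.IsSolvable G]
    (C : Type u) [Group C] [Fintype C] (hC : IsCyclic C) (hcard : Fintype.card C = Fintype.card G)
    {r : ℝ} (hr : 0 < r)
    (h : ∑ x : G, ((orderOf x : ℝ) / (Nat.totient (orderOf x) : ℝ)) ^ r =
      ∑ x : C, ((orderOf x : ℝ) / (Nat.totient (orderOf x) : ℝ)) ^ r) : Group.IsNilpotent G := by
  rw [R_eq G hr.le, R_eq C hr.le, hcard] at h
  have hpos : 0 < ∏ p ∈ (Fintype.card G).primeFactors, cc r p := by
    apply Finset.prod_pos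
    intro p hp
    have := one_le_cc hr.le (Nat.prime_of_mem_primeFactors hp)
    linarith
  have h' := mul_left_cancel₀ hpos.ne' h
  have hprime : ∀ q ∈ (Fintype.card G).primeFactors, q.Prime :=
    fun q hq => Nat.prime_of_mem_primeFactors hq
  have hcomm : ∀ a b : C, a * b = b * a := by
    intro a b
    obtain ⟨g, hg⟩ := hC.exists_generator
    obtain ⟨i, rfl⟩ := Subgroup.mem_zpowers_iff.1 (hg a)
    obtain ⟨j, rfl⟩ := Subgroup.mem_zpowers_iff.1 (hg b)
    exact (Commute.refl g).zpow_zpow i j
  rw [L_comm C hcomm _ hprime, hcard] at h'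
  refine nilpotent_of_equality_aux _ G rfl _ hprime ?_ (tt r) (tt_mem hr.le) ?_ h'
  · intro p hp hd
    exact Nat.mem_primeFactors.2 ⟨hp, hd, Fintype.card_ne_zero⟩
  · intro q hq
    exact tt_pos hr (hprime q hq)

end Pool.Agent.W582.OE
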