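import Mathlib

set_option autoImplicit false

/-! Element orders under a quotient by a normal `p`-subgroup. -/

namespace Pool.Agent.W582.OE

open Finset

variable {G : Type*} [Group G]

/-- local factor at `q`: `1` if `q ∣ o(g)`, else `1 - t`. -/
noncomputable def fac {G : Type*} [Group G] (t : ℝ) (q : ℕ) (g : G) : ℝ :=
  if q ∣ orderOf g then 1 else 1 - t

/-- `∑_g ∏_{q ∈ S} fac`. -/
noncomputable def L (G : Type*) [Group G] [Fintype G] (S : Finset ℕ) (t : ℕ → ℝ) : ℝ :=
  ∑ g : G, ∏ q ∈ S, fac (t q) q g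

theorem fac_nonneg {t : ℝ} (h : t ≤ 1) (q : ℕ) (g : G) : 0 ≤ fac t q g := by
  unfold fac; split_ifs <;> linarith

variable (V : Subgroup G) [V.Normal]

theorem dvd_orderOf_mk_iff [Finite G] {p : ℕ} (hp : p.Prime) (hV : IsPGroup p V) {q : ℕ}
    (hq : q.Prime) (hqp : q ≠ p) (g : G) :
    q ∣ orderOf (QuotientGroup.mk' V g) ↔ q ∣ orderOf g := by
  constructor
  · intro h
    exact h.trans (orderOf_map_dvd _ _)
  · intro h
    set d := orderOf (QuotientGroup.mk' V g) with hd
    have h1 : g ^ d ∈ V := by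
      have : QuotientGroup.mk' V (g ^ d) = 1 := by
        rw [map_pow, hd, pow_orderOf_eq_one]
      rwa [QuotientGroup.mk'_apply, QuotientGroup.eq_one_iff] at this
    obtain ⟨k, hk⟩ := hV ⟨g ^ d, h1⟩
    have h2 : g ^ (d * p ^ k) = 1 := by
      have := congrArg Subtype.val hk
      simpa [pow_mul] using this
    have h3 : orderOf g ∣ d * p ^ k := orderOf_dvd_of_pow_eq_one h2
    rcases (hq.dvd_mul).1 (h.trans h3) with h4 | h4
    · exact h4
    · exact absurd ((Nat.prime_dvd_prime_iff_eq hq hp).1 (hq.dvd_of_dvd_pow h4)) hqp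

theorem exists_regular [Finite G] {p : ℕ} (hp : p.Prime) (hV : IsPGroup p V)
    (c : G ⧸ V) (hc : ¬ p ∣ orderOf c) :
    ∃ g : G, QuotientGroup.mk' V g = c ∧ ¬ p ∣ orderOf g := by
  obtain ⟨g, rfl⟩ := QuotientGroup.mk'_surjective V c
  set d := orderOf (QuotientGroup.mk' V g) with hd
  have h1 : g ^ d ∈ V := by
    have : QuotientGroup.mk' V (g ^ d) = 1 := by
      rw [map_pow, hd, pow_orderOf_eq_one]
    rwa [QuotientGroup.mk'_apply, QuotientGroup.eq_one_iff] at this
  obtain ⟨k, hk⟩ := hV ⟨g ^ d, h1⟩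
  have h2 : g ^ (d * p ^ k) = 1 := by
    have := congrArg Subtype.val hk
    simpa [pow_mul] using this
  have hcop : Nat.Coprime d (p ^ k) := by
    apply Nat.Coprime.pow_right
    exact ((Nat.Prime.coprime_iff_not_dvd hp).2 hc).symm
  obtain ⟨e, he1, he2⟩ := Nat.chineseRemainder hcop 1 0
  refine ⟨g ^ e, ?_, ?_⟩
  · rw [map_pow]
    have : (QuotientGroup.mk' V g) ^ e = (QuotientGroup.mk' V g) ^ 1 := by
      rw [pow_eq_pow_iff_modEq]
      exact he1
    rw [this, pow_one]
  · have h4 : (g ^ e) ^ d = 1 := by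
      obtain ⟨s, hs⟩ := (Nat.modEq_zero_iff_dvd).1 he2
      rw [← pow_mul, hs, show p ^ k * s * d = (d * p ^ k) * s by ring, pow_mul, h2, one_pow]
    intro h
    exact hc (h.trans (orderOf_dvd_of_pow_eq_one h4))

theorem card_fiber [Fintype G] [DecidableEq (G ⧸ V)] (c : G ⧸ V) :
    (univ.filter fun g : G => QuotientGroup.mk' V g = c).card = Nat.card V := by
  obtain ⟨g, rfl⟩ := QuotientGroup.mk'_surjective V c
  have : (univ.filter fun h : G => QuotientGroup.mk' V h = QuotientGroup.mk' V g).card =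
      (Set.univ : Set V).ncard := by
    rw [← Set.ncard_coe_finset]
    symm
    apply Set.ncard_congr (fun (v : V) _ => g * (v : G))
    · intro v _
      show g * (v : G) ∈ ((univ.filter fun h : G => QuotientGroup.mk' V h = QuotientGroup.mk' V g : Finset G) : Set G)
      rw [mem_coe, mem_filter]
      refine ⟨mem_univ _, ?_⟩
      rw [map_mul]
      have : QuotientGroup.mk' V (v : G) = 1 := by
        rw [QuotientGroup.mk'_apply, QuotientGroup.eq_one_iff]; exact v.2
      rw [this, mul_one]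
    · intro v w _ _ h
      exact Subtype.ext (mul_left_cancel h)
    · intro h hh
      rw [mem_coe, mem_filter] at hh
      replace hh := hh.2
      refine ⟨⟨g⁻¹ * h, ?_⟩, Set.mem_univ _, by simp⟩
      exact (QuotientGroup.eq).1 hh.symm
  rw [this, Set.ncard_univ]

end Pool.Agent.W582.OE
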