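import Pool.Agent.W582.OE.Comm

set_option autoImplicit false

namespace Pool.Agent.W582.OE

open Finset

universe u

/-- `(1 - 1/p)^{-r}`. -/
noncomputable def cc (r : ℝ) (p : ℕ) : ℝ := ((1 - (p : ℝ)⁻¹)⁻¹) ^ r

/-- weights. -/
noncomputable def tt (r : ℝ) (p : ℕ) : ℝ := if p.Prime then 1 - (cc r p)⁻¹ else 0

theorem one_sub_inv_pos {p : ℕ} (hp : p.Prime) : (0 : ℝ) < 1 - (p : ℝ)⁻¹ := by
  have h2 : (2 : ℝ) ≤ p := by exact_mod_cast hp.two_le
  have : (p : ℝ)⁻¹ ≤ 2⁻¹ := inv_anti₀ (by norm_num) h2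
  linarith [show (2 : ℝ)⁻¹ = 1 / 2 by norm_num]

theorem one_le_cc {r : ℝ} (hr : 0 ≤ r) {p : ℕ} (hp : p.Prime) : 1 ≤ cc r p := by
  unfold cc
  apply Real.one_le_rpow _ hr
  rw [one_le_inv₀ (one_sub_inv_pos hp)]
  have : (0 : ℝ) ≤ (p : ℝ)⁻¹ := by positivity
  linarith

theorem tt_mem {r : ℝ} (hr : 0 ≤ r) (q : ℕ) : 0 ≤ tt r q ∧ tt r q ≤ 1 := by
  unfold tt
  split_ifs with hq
  · have h1 := one_le_cc hr hq
    have h2 : (cc r q)⁻¹ ≤ 1 := inv_le_one_of_one_le₀ h1
    have h3 : 0 < (cc r q)⁻¹ := inv_pos.2 (by linarith)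
    constructor <;> linarith
  · constructor <;> norm_num

theorem f_eq_prod (n : ℕ) (hn : n ≠ 0) :
    (n : ℝ) / (Nat.totient n : ℝ) = ∏ p ∈ n.primeFactors, (1 - (p : ℝ)⁻¹)⁻¹ := by
  have h := Nat.totient_eq_mul_prod_factors n
  have h' : (Nat.totient n : ℝ) = n * ∏ p ∈ n.primeFactors, (1 - (p : ℝ)⁻¹) := by
    have := congrArg (fun x : ℚ => (x : ℝ)) h
    push_cast at this
    exact this
  rw [h', Finset.prod_inv_distrib]
  have hn' : (n : ℝ) ≠ 0 := by exact_mod_cast hn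
  have hP : ∏ p ∈ n.primeFactors, (1 - (p : ℝ)⁻¹) ≠ 0 := by
    apply Finset.prod_ne_zero_iff.2
    intro p hp
    exact (one_sub_inv_pos (Nat.prime_of_mem_primeFactors hp)).ne'
  field_simp

theorem R_eq (G : Type u) [Group G] [Fintype G] {r : ℝ} (hr : 0 ≤ r) :
    ∑ x : G, ((orderOf x : ℝ) / (Nat.totient (orderOf x) : ℝ)) ^ r =
      (∏ p ∈ (Fintype.card G).primeFactors, cc r p) *
        L G (Fintype.card G).primeFactors (tt r) := by
  unfold L
  rw [Finset.mul_sum]
  apply Finset.sum_congr rfl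
  intro g _
  have ho : orderOf g ≠ 0 := (orderOf_pos g).ne'
  have hdvd : orderOf g ∣ Fintype.card G := orderOf_dvd_card
  rw [f_eq_prod _ ho, ← Real.finsetProd_rpow]
  · rw [← Finset.prod_mul_distrib]
    have hsub : (orderOf g).primeFactors ⊆ (Fintype.card G).primeFactors :=
      Nat.primeFactors_mono hdvd Fintype.card_ne_zero
    rw [← Finset.prod_subset hsub (f := fun p => cc r p * fac (tt r p) p g)]
    · apply Finset.prod_congr rfl
      intro p hp
      unfold fac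
      rw [if_pos (Nat.dvd_of_mem_primeFactors hp), mul_one]
      rfl
    · intro p hp hp'
      have hpp : p.Prime := Nat.prime_of_mem_primeFactors hp
      have hnd : ¬ p ∣ orderOf g := fun h => hp' (Nat.mem_primeFactors.2 ⟨hpp, h, ho⟩)
      unfold fac
      rw [if_neg hnd]
      unfold tt
      rw [if_pos hpp]
      have h1 := one_le_cc hr hpp
      have h2 : cc r p ≠ 0 := by linarith
      field_simp
      ring
  · intro p hp
    exact (inv_pos.2 (one_sub_inv_pos (Nat.prime_of_mem_primeFactors hp))).le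

theorem R_le_of_good (G : Type u) [Group G] [Fintype G] (h : Good G)
    (C : Type u) [Group C] [Fintype C] (hC : IsCyclic C) (hcard : Fintype.card C = Fintype.card G)
    {r : ℝ} (hr : 0 ≤ r) :
    ∑ x : G, ((orderOf x : ℝ) / (Nat.totient (orderOf x) : ℝ)) ^ r ≤
      ∑ x : C, ((orderOf x : ℝ) / (Nat.totient (orderOf x) : ℝ)) ^ r := by
  rw [R_eq G hr, R_eq C hr, hcard]
  apply mul_le_mul_of_nonneg_left
  · have hprime : ∀ q ∈ (Fintype.card G).primeFactors, q.Prime :=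
      fun q hq => Nat.prime_of_mem_primeFactors hq
    have hcomm : ∀ a b : C, a * b = b * a := by
      intro a b
      obtain ⟨g, hg⟩ := hC.exists_generator
      obtain ⟨i, rfl⟩ := Subgroup.mem_zpowers_iff.1 (hg a)
      obtain ⟨j, rfl⟩ := Subgroup.mem_zpowers_iff.1 (hg b)
      exact (Commute.refl g).zpow_zpow i j
    rw [L_comm C hcomm _ hprime, hcard]
    exact h _ hprime _ (tt_mem hr)
  · apply Finset.prod_nonneg
    intro p hp
    have := one_le_cc hr (Nat.prime_of_mem_primeFactors hp)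
    linarith

end Pool.Agent.W582.OE
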