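import Pool.Agent.W582.OE.Step

set_option autoImplicit false

namespace Pool.Agent.W582.OE

open Finset

universe u

section

variable {G : Type u} [Group G]

/-- elements of exponent `p` in a commutative subgroup. -/
def expSub (A : Subgroup G) (hA : ∀ a ∈ A, ∀ b ∈ A, a * b = b * a) (p : ℕ) : Subgroup G where
  carrier := {g | g ∈ A ∧ g ^ p = 1}
  mul_mem' := by
    rintro a b ⟨ha, ha'⟩ ⟨hb, hb'⟩
    refine ⟨A.mul_mem ha hb, ?_⟩
    have : Commute a b := hA a ha b hb
    rw [this.mul_pow, ha', hb', one_mul]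
  one_mem' := ⟨A.one_mem, one_pow p⟩
  inv_mem' := by
    rintro a ⟨ha, ha'⟩
    exact ⟨A.inv_mem ha, by rw [inv_pow, ha', inv_one]⟩

theorem mem_expSub {A : Subgroup G} {hA : ∀ a ∈ A, ∀ b ∈ A, a * b = b * a} {p : ℕ} {g : G} :
    g ∈ expSub A hA p ↔ g ∈ A ∧ g ^ p = 1 := Iff.rfl

theorem expSub_normal (A : Subgroup G) (hA : ∀ a ∈ A, ∀ b ∈ A, a * b = b * a) (p : ℕ)
    [hN : A.Normal] : (expSub A hA p).Normal := by
  constructor
  rintro a ⟨ha, ha'⟩ g
  refine ⟨hN.conj_mem a ha g, ?_⟩
  rw [conj_pow, ha', mul_one, mul_inv_cancel]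

/-- A nontrivial solvable normal subgroup of a finite group contains a nontrivial normal
`p`-subgroup of the group. -/
theorem exists_normal_pGroup [Finite G] (N : Subgroup G) [hN : N.Normal] [Group.IsSolvable N]
    (hne : N ≠ ⊥) :
    ∃ (p : ℕ) (V : Subgroup G), p.Prime ∧ V.Normal ∧ V ≤ N ∧ V ≠ ⊥ ∧ IsPGroup p V := by
  classical
  have hs : ∃ k, derivedSeries N k = ⊥ := (isSolvable_def N).1 inferInstance
  set k := Nat.find hs with hk
  have hk0 : k ≠ 0 := by
    intro h0
    have := Nat.find_spec hs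
    rw [← hk, h0, derivedSeries_zero] at this
    apply hne
    rw [eq_bot_iff]
    intro x hx
    have hx' : (⟨x, hx⟩ : N) ∈ (⊤ : Subgroup N) := Subgroup.mem_top _
    rw [this, Subgroup.mem_bot] at hx'
    rw [Subgroup.mem_bot]
    exact congrArg Subtype.val hx'
  obtain ⟨j, hj⟩ := Nat.exists_eq_succ_of_ne_zero hk0
  set D := derivedSeries N j with hD
  have hDne : D ≠ ⊥ := by
    intro h
    exact Nat.find_min hs (m := j) (by omega) h
  have hDcomm : ∀ a ∈ D, ∀ b ∈ D, a * b = b * a := by
    intro a ha b hb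
    have h1 : derivedSeries N (j + 1) = ⊥ := by
      have := Nat.find_spec hs
      rw [← hk, hj] at this
      exact this
    rw [derivedSeries_succ] at h1
    have h2 : a * b * a⁻¹ * b⁻¹ ∈ (⊥ : Subgroup N) := by
      rw [← h1]
      exact Subgroup.commutator_mem_commutator ha hb
    rw [Subgroup.mem_bot] at h2
    have h3 := mul_inv_eq_one.1 h2
    exact mul_inv_eq_iff_eq_mul.1 h3
  have : D.Characteristic := by
    rw [hD]; infer_instance
  set A := D.map N.subtype with hAdef
  have hAn : A.Normal := ConjAct.normal_of_characteristic_of_normal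
  have hAcomm : ∀ a ∈ A, ∀ b ∈ A, a * b = b * a := by
    rintro _ ⟨a, ha, rfl⟩ _ ⟨b, hb, rfl⟩
    rw [← map_mul, ← map_mul, hDcomm a ha b hb]
  obtain ⟨a, ha, ha1⟩ : ∃ a ∈ A, a ≠ 1 := by
    obtain ⟨⟨d, hd⟩, hd1'⟩ := Subgroup.ne_bot_iff_exists_ne_one.1 hDne
    have hd1 : d ≠ 1 := fun h => hd1' (Subtype.ext h)
    exact ⟨N.subtype d, ⟨d, hd, rfl⟩, fun h => hd1 (N.subtype_injective (by rw [h, map_one]))⟩
  have hao : orderOf a ≠ 1 := fun h => ha1 (orderOf_eq_one_iff.1 h)
  obtain ⟨p, hp, hpa⟩ := Nat.exists_prime_and_dvd hao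
  refine ⟨p, expSub A hAcomm p, hp, expSub_normal A hAcomm p, ?_, ?_, ?_⟩
  · rintro x ⟨hx, -⟩
    obtain ⟨y, -, rfl⟩ := hx
    exact y.2
  · intro hbot
    have h1 : a ^ (orderOf a / p) ∈ expSub A hAcomm p := by
      refine ⟨A.pow_mem ha _, ?_⟩
      rw [← pow_mul, Nat.div_mul_cancel hpa, pow_orderOf_eq_one]
    rw [hbot, Subgroup.mem_bot] at h1
    have h2 := orderOf_dvd_of_pow_eq_one h1
    have h3 : 0 < orderOf a := orderOf_pos a
    have h4 : 0 < orderOf a / p := Nat.div_pos (Nat.le_of_dvd h3 hpa) hp.pos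
    have h5 : orderOf a / p < orderOf a := Nat.div_lt_self h3 hp.one_lt
    exact absurd (Nat.le_of_dvd h4 h2) (not_le.2 h5)
  · intro x
    refine ⟨1, ?_⟩
    apply Subtype.ext
    rw [pow_one]
    exact x.2.2

end

theorem good_of_solvable_normal_aux (n : ℕ) :
    ∀ (G : Type u) [Group G] [Fintype G], Fintype.card G = n →
      ∀ (N : Subgroup G) [N.Normal] [Group.IsSolvable N] [Fintype (G ⧸ N)],
        Good (G ⧸ N) → Good G := by
  classical
  induction n using Nat.strong_induction_on with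
  | _ n ih =>
    intro G _ _ hG N _ _ _ hgood
    by_cases hne : N = ⊥
    · subst hne
      exact good_of_mulEquiv (QuotientGroup.quotientBot (G := G)).symm hgood
    · obtain ⟨p, V, hp, hVn, hVN, hVne, hVp⟩ := exists_normal_pGroup N hne
      have := hVn
      have : Fintype (G ⧸ V) := Fintype.ofFinite _
      apply good_of_quotient V hp hVp
      set M : Subgroup (G ⧸ V) := N.map (QuotientGroup.mk' V) with hM
      have : M.Normal := by
        rw [hM]; infer_instance
      have : Group.IsSolvable M :=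
        solvable_of_surjective (f := (QuotientGroup.mk' V).subgroupMap N)
          ((QuotientGroup.mk' V).subgroupMap_surjective N)
      have : Fintype ((G ⧸ V) ⧸ M) := Fintype.ofFinite _
      have hlt : Fintype.card (G ⧸ V) < n := by
        rw [← hG, ← Nat.card_eq_fintype_card, ← Nat.card_eq_fintype_card,
          V.card_eq_card_quotient_mul_card_subgroup]
        have h1 : 1 < Nat.card V := (Subgroup.one_lt_card_iff_ne_bot V).2 hVne
        have h2 : 0 < Nat.card (G ⧸ V) := Nat.card_pos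
        nlinarith
      refine ih _ hlt (G ⧸ V) rfl M ?_
      exact good_of_mulEquiv (QuotientGroup.quotientQuotientEquivQuotient V N hVN) hgood

/-- solvable-by-good is good. -/
theorem good_of_solvable_normal (G : Type u) [Group G] [Fintype G]
    (N : Subgroup G) [N.Normal] [Group.IsSolvable N] [Fintype (G ⧸ N)] (h : Good (G ⧸ N)) : Good G :=
  good_of_solvable_normal_aux _ G rfl N h

theorem good_of_solvable (G : Type u) [Group G] [Fintype G] [Group.IsSolvable G] : Good G := by
  have : Fintype (G ⧸ (⊤ : Subgroup G)) := Fintype.ofFinite _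
  have : Subsingleton (G ⧸ (⊤ : Subgroup G)) := QuotientGroup.subsingleton_quotient_top
  exact good_of_solvable_normal G ⊤ good_of_subsingleton

end Pool.Agent.W582.OE
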