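import Pool.Agent.W582.OE.Fiber

set_option autoImplicit false

namespace Pool.Agent.W582.OE

open Finset

universe u

/-- the bound `∏ (1 - t_q / |G|_q)`. -/
noncomputable def B (n : ℕ) (S : Finset ℕ) (t : ℕ → ℝ) : ℝ :=
  ∏ q ∈ S, (1 - t q / (q : ℝ) ^ (n.factorization q))

/-- the inequality for all admissible weights. -/
def Good (G : Type u) [Group G] [Fintype G] : Prop :=
  ∀ (S : Finset ℕ), (∀ q ∈ S, q.Prime) → ∀ t : ℕ → ℝ, (∀ q, 0 ≤ t q ∧ t q ≤ 1) →
    L G S t ≤ (Fintype.card G : ℝ) * B (Fintype.card G) S t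

section

variable {G : Type u} [Group G] [Fintype G] (V : Subgroup G) [V.Normal]

/-- one fibre, one prime. -/
theorem fiber_single {p : ℕ} (hp : p.Prime) (hV : IsPGroup p V) [Fintype (G ⧸ V)]
    [DecidableEq (G ⧸ V)] (c : G ⧸ V) {s : ℝ} (hs0 : 0 ≤ s) :
    ∑ g ∈ univ.filter (fun g : G => QuotientGroup.mk' V g = c), fac s p g ≤
      (Nat.card V : ℝ) * fac (s / (Nat.card V : ℝ)) p c := by
  classical
  have hcV : (0 : ℝ) < Nat.card V := by exact_mod_cast Nat.card_pos
  unfold fac
  by_cases hc : p ∣ orderOf c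
  · rw [if_pos hc, mul_one]
    rw [Finset.sum_congr rfl (g := fun _ => (1 : ℝ))]
    · rw [sum_const, card_fiber, nsmul_eq_mul, mul_one]
    · intro g hg
      rw [mem_filter] at hg
      rw [if_pos]
      rw [← hg.2] at hc
      exact hc.trans (orderOf_map_dvd _ _)
  · rw [if_neg hc]
    obtain ⟨g0, hg0, hg0'⟩ := exists_regular V hp hV c hc
    have hmem : g0 ∈ univ.filter (fun g : G => QuotientGroup.mk' V g = c) := by
      rw [mem_filter]; exact ⟨mem_univ _, hg0⟩
    rw [← Finset.add_sum_erase _ _ hmem, if_neg hg0']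
    have h1 : ∑ g ∈ (univ.filter (fun g : G => QuotientGroup.mk' V g = c)).erase g0,
        (if p ∣ orderOf g then (1 : ℝ) else 1 - s) ≤
        ∑ g ∈ (univ.filter (fun g : G => QuotientGroup.mk' V g = c)).erase g0, (1 : ℝ) := by
      apply Finset.sum_le_sum
      intro g _
      split_ifs
      · exact le_rfl
      · linarith
    have h2 : ∑ g ∈ (univ.filter (fun g : G => QuotientGroup.mk' V g = c)).erase g0, (1 : ℝ) =
        Nat.card V - 1 := by
      rw [sum_const, Finset.card_erase_of_mem hmem, card_fiber, nsmul_eq_mul, mul_one,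
        Nat.cast_sub Nat.card_pos, Nat.cast_one]
    have h3 : (Nat.card V : ℝ) * (1 - s / Nat.card V) = Nat.card V - s := by
      field_simp
    rw [h3]
    linarith

/-- the modified weights. -/
noncomputable def upd (t : ℕ → ℝ) (p : ℕ) (c : ℕ) : ℕ → ℝ := Function.update t p (t p / (c : ℝ))

theorem upd_mem {t : ℕ → ℝ} (ht : ∀ q, 0 ≤ t q ∧ t q ≤ 1) (p : ℕ) {c : ℕ} (hc : 0 < c) :
    ∀ q, 0 ≤ upd t p c q ∧ upd t p c q ≤ 1 := by
  intro q
  unfold upd
  by_cases h : q = p
  · subst h
    rw [Function.update_self]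
    have hc' : (1 : ℝ) ≤ c := by exact_mod_cast hc
    refine ⟨div_nonneg (ht q).1 (by linarith), ?_⟩
    rw [div_le_one (by linarith)]
    exact (ht q).2.trans hc'
  · rw [Function.update_of_ne h]
    exact ht q

theorem L_le_quotient {p : ℕ} (hp : p.Prime) (hV : IsPGroup p V) [Fintype (G ⧸ V)]
    (S : Finset ℕ) (hS : ∀ q ∈ S, q.Prime) (t : ℕ → ℝ) (ht : ∀ q, 0 ≤ t q ∧ t q ≤ 1) :
    L G S t ≤ (Nat.card V : ℝ) * L (G ⧸ V) S (upd t p (Nat.card V)) := by
  classical
  have hcV : (0 : ℝ) < Nat.card V := by exact_mod_cast Nat.card_pos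
  unfold L
  rw [← Finset.sum_fiberwise_of_maps_to (s := (univ : Finset G)) (t := (univ : Finset (G ⧸ V)))
    (g := fun g => QuotientGroup.mk' V g) (fun _ _ => mem_univ _), Finset.mul_sum]
  apply Finset.sum_le_sum
  intro c _
  have hne : ∀ q ∈ S, q ≠ p → ∀ g ∈ univ.filter (fun g : G => QuotientGroup.mk' V g = c),
      fac (t q) q g = fac (upd t p (Nat.card V) q) q c := by
    intro q hq hqp g hg
    rw [mem_filter] at hg
    unfold fac upd
    rw [Function.update_of_ne hqp]
    have := dvd_orderOf_mk_iff V hp hV (hS q hq) hqp g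
    rw [hg.2] at this
    by_cases h : q ∣ orderOf g
    · rw [if_pos h, if_pos (this.2 h)]
    · rw [if_neg h, if_neg (fun h' => h (this.1 h'))]
  by_cases hpS : p ∈ S
  · rw [← Finset.mul_prod_erase S _ hpS]
    have : ∀ g ∈ univ.filter (fun g : G => QuotientGroup.mk' V g = c),
        ∏ q ∈ S, fac (t q) q g =
          fac (t p) p g * ∏ q ∈ S.erase p, fac (upd t p (Nat.card V) q) q c := by
      intro g hg
      rw [← Finset.mul_prod_erase S _ hpS]
      congr 1
      apply Finset.prod_congr rfl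
      intro q hq
      rw [mem_erase] at hq
      exact hne q hq.2 hq.1 g hg
    rw [Finset.sum_congr rfl this, ← Finset.sum_mul]
    have h1 := fiber_single V hp hV c (ht p).1
    have h2 : fac (upd t p (Nat.card V) p) p c = fac (t p / (Nat.card V : ℝ)) p c := by
      unfold upd; rw [Function.update_self]
    rw [h2, ← mul_assoc]
    apply mul_le_mul_of_nonneg_right h1
    apply Finset.prod_nonneg
    intro q _
    exact fac_nonneg (upd_mem ht p Nat.card_pos q).2 _ _
  · have : ∀ g ∈ univ.filter (fun g : G => QuotientGroup.mk' V g = c),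
        ∏ q ∈ S, fac (t q) q g = ∏ q ∈ S, fac (upd t p (Nat.card V) q) q c := by
      intro g hg
      apply Finset.prod_congr rfl
      intro q hq
      exact hne q hq (fun h => hpS (h ▸ hq)) g hg
    rw [Finset.sum_congr rfl this, sum_const, card_fiber, nsmul_eq_mul]

theorem B_quotient {p : ℕ} (hp : p.Prime) (hV : IsPGroup p V) [Fintype (G ⧸ V)]
    (S : Finset ℕ) (hS : ∀ q ∈ S, q.Prime) (t : ℕ → ℝ) :
    B (Fintype.card (G ⧸ V)) S (upd t p (Nat.card V)) = B (Fintype.card G) S t := by
  unfold B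
  apply Finset.prod_congr rfl
  intro q hq
  have hcard : Fintype.card G = Fintype.card (G ⧸ V) * Nat.card V := by
    rw [← Nat.card_eq_fintype_card, ← Nat.card_eq_fintype_card]
    exact V.card_eq_card_quotient_mul_card_subgroup
  haveI : Fact p.Prime := ⟨hp⟩
  obtain ⟨k, hk⟩ := (IsPGroup.iff_card (G := V)).1 hV
  have h1 : Fintype.card (G ⧸ V) ≠ 0 := Fintype.card_ne_zero
  have h2 : Nat.card V ≠ 0 := Nat.card_pos.ne'
  have hf : (Fintype.card G).factorization q =
      (Fintype.card (G ⧸ V)).factorization q + (Nat.card V).factorization q := by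
    rw [hcard, Nat.factorization_mul h1 h2]; rfl
  by_cases h : q = p
  · subst h
    have h3 : (Nat.card V).factorization q = k := by
      rw [hk, Nat.Prime.factorization_pow hp, Finsupp.single_eq_same]
    unfold upd
    rw [Function.update_self, hf, h3, pow_add, hk]
    push_cast
    have : (q : ℝ) ≠ 0 := by exact_mod_cast hp.ne_zero
    field_simp
  · have h3 : (Nat.card V).factorization q = 0 := by
      rw [hk, Nat.Prime.factorization_pow hp, Finsupp.single_apply, if_neg (fun h' => h h'.symm)]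
    unfold upd
    rw [Function.update_of_ne h, hf, h3, add_zero]

theorem good_of_quotient {p : ℕ} (hp : p.Prime) (hV : IsPGroup p V) [Fintype (G ⧸ V)]
    (h : Good (G ⧸ V)) : Good G := by
  intro S hS t ht
  have hcard : (Fintype.card G : ℝ) = Nat.card V * Fintype.card (G ⧸ V) := by
    rw [← Nat.card_eq_fintype_card, ← Nat.card_eq_fintype_card, mul_comm]
    exact_mod_cast V.card_eq_card_quotient_mul_card_subgroup
  have hcV : (0 : ℝ) ≤ Nat.card V := by positivity
  calc L G S t ≤ (Nat.card V : ℝ) * L (G ⧸ V) S (upd t p (Nat.card V)) :=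
        L_le_quotient V hp hV S hS t ht
    _ ≤ (Nat.card V : ℝ) * ((Fintype.card (G ⧸ V) : ℝ) *
          B (Fintype.card (G ⧸ V)) S (upd t p (Nat.card V))) :=
        mul_le_mul_of_nonneg_left (h S hS _ (upd_mem ht p Nat.card_pos)) hcV
    _ = _ := by rw [B_quotient V hp hV S hS t, hcard]; ring

end

theorem good_of_mulEquiv {G H : Type u} [Group G] [Fintype G] [Group H] [Fintype H]
    (e : G ≃* H) (h : Good H) : Good G := by
  intro S hS t ht
  have hc : Fintype.card G = Fintype.card H := Fintype.card_congr e.toEquiv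
  rw [hc]
  refine le_of_eq_of_le ?_ (h S hS t ht)
  unfold L
  apply Fintype.sum_equiv e.toEquiv
  intro g
  apply Finset.prod_congr rfl
  intro q _
  unfold fac
  have : orderOf (e.toEquiv g) = orderOf g := by
    exact MulEquiv.orderOf_eq e g
  rw [this]

theorem good_of_subsingleton {G : Type u} [Group G] [Fintype G] [Subsingleton G] : Good G := by
  intro S hS t ht
  have hc : Fintype.card G = 1 := Fintype.card_eq_one_iff_nonempty_unique.2
    ⟨⟨⟨1⟩, fun a => Subsingleton.elim _ _⟩⟩
  rw [hc]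
  unfold L B
  have huniv : (univ : Finset G) = {1} := by
    ext x; simp [Subsingleton.elim x 1]
  rw [huniv, sum_singleton]
  simp only [Nat.cast_one, one_mul]
  apply le_of_eq
  apply Finset.prod_congr rfl
  intro q hq
  unfold fac
  rw [orderOf_one, if_neg]
  · simp
  · intro h
    exact (hS q hq).one_lt.ne' (Nat.dvd_one.1 h)

end Pool.Agent.W582.OE
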